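import Mathlib

/-!
# Pushing the points of an open hemisphere away from its pole destroys all contacts
-/

namespace Pool.Agent.H13.Kiss

open Finset

variable {E : Type*} [NormedAddCommGroup E] [InnerProductSpace ℝ E]

/-- Numerical core. -/
theorem core {p σ t : ℝ} {sx sy : ℝ} (hσ : σ = sx + sy) (hsx : |sx| ≤ 1) (hsy : |sy| ≤ 1)
    (ht0 : 0 < t) (ht1 : 20 * t < σ) (hp : p ≤ 1 / 2) :
    p - t * σ + t ^ 2 < (1 / 2) * √((1 - 2 * t * sx + t ^ 2) * (1 - 2 * t * sy + t ^ 2)) := by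
  have hx := abs_le.mp hsx
  have hy := abs_le.mp hsy
  have hσ2 : σ ≤ 2 := by rw [hσ]; linarith [hx.2, hy.2]
  have hσ0 : 0 < σ := by linarith
  have hN : p - t * σ + t ^ 2 ≤ 1 / 2 - t * σ + t ^ 2 := by linarith
  refine lt_of_le_of_lt hN ?_
  have hprod : -1 ≤ sx * sy := by nlinarith
  have h4 : (2 * (1 / 2 - t * σ + t ^ 2)) ^ 2 <
      (1 - 2 * t * sx + t ^ 2) * (1 - 2 * t * sy + t ^ 2) := by
    have e : (1 - 2 * t * sx + t ^ 2) * (1 - 2 * t * sy + t ^ 2) -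
        (2 * (1 / 2 - t * σ + t ^ 2)) ^ 2 =
        2 * t * σ * (1 + 3 * t ^ 2) - t ^ 2 * (2 + 3 * t ^ 2 + 4 * σ ^ 2 - 4 * (sx * sy)) := by
      rw [hσ]; ring
    have h5 : t ^ 2 * (2 + 3 * t ^ 2 + 4 * σ ^ 2 - 4 * (sx * sy)) ≤ t ^ 2 * 25 := by
      have : 2 + 3 * t ^ 2 + 4 * σ ^ 2 - 4 * (sx * sy) ≤ 25 := by nlinarith
      exact mul_le_mul_of_nonneg_left this (by positivity)
    have h6 : t ^ 2 * 25 < 2 * t * σ * (1 + 3 * t ^ 2) := by
      have h7 : 2 * t * σ ≤ 2 * t * σ * (1 + 3 * t ^ 2) := by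
        have : 0 < 2 * t * σ := by positivity
        nlinarith [sq_nonneg t]
      have h8 : t ^ 2 * 25 < 2 * t * σ := by nlinarith
      linarith
    linarith
  have h9 : 2 * (1 / 2 - t * σ + t ^ 2) < √((1 - 2 * t * sx + t ^ 2) * (1 - 2 * t * sy + t ^ 2)) :=
    Real.lt_sqrt_of_sq_lt h4
  linarith

theorem exists_generic (X : Finset E) (hX : ∀ x ∈ X, x ≠ 0) :
    ∃ u : E, ∀ x ∈ X, inner ℝ x u ≠ 0 := by
  classical
  have htop : (⊤ : Submodule ℝ E) ∉ X.image (fun x => (ℝ ∙ x)ᗮ) := by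
    intro h
    obtain ⟨x, hx, hxt⟩ := mem_image.mp h
    have h1 : x ∈ (ℝ ∙ x)ᗮ := by rw [hxt]; exact Submodule.mem_top
    rw [Submodule.mem_orthogonal_singleton_iff_inner_right] at h1
    exact hX x hx (inner_self_eq_zero.mp h1)
  obtain ⟨u, hu⟩ := (Set.ne_univ_iff_exists_notMem _).mp
    (Subspace.biUnion_ne_univ_of_top_notMem htop)
  refine ⟨u, fun x hx h0 => hu ?_⟩
  simp only [Set.mem_iUnion]
  refine ⟨(ℝ ∙ x)ᗮ, mem_image_of_mem _ hx, ?_⟩
  exact (Submodule.mem_orthogonal_singleton_iff_inner_right).mpr h0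

theorem push (u : E) (hu : ‖u‖ = 1) (X : Finset E) (h1 : ∀ x ∈ X, ‖x‖ = 1)
    (h2 : ∀ x ∈ X, ∀ y ∈ X, x ≠ y → inner ℝ x y ≤ 1 / 2) (h3 : ∀ x ∈ X, 0 < inner ℝ x u)
    (ε : ℝ) (hε : 0 < ε) :
    ∃ f : E → E, (∀ x ∈ X, ‖f x‖ = 1 ∧ ‖f x - x‖ < ε) ∧
      ∀ x ∈ X, ∀ y ∈ X, x ≠ y → inner ℝ (f x) (f y) < 1 / 2 := by
  rcases X.eq_empty_or_nonempty with h0 | hne
  · subst h0
    exact ⟨id, by simp, by simp⟩
  obtain ⟨x₀, hx₀, hmin⟩ := exists_min_image X (fun x => inner ℝ x u) hne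
  set μ : ℝ := inner ℝ x₀ u with hμ
  have hμ0 : 0 < μ := h3 x₀ hx₀
  have hs1 : ∀ x ∈ X, |inner ℝ x u| ≤ 1 := by
    intro x hx
    have := abs_real_inner_le_norm x u
    rw [h1 x hx, hu, one_mul] at this
    exact this
  have hμ1 : μ ≤ 1 := (le_abs_self _).trans (hs1 x₀ hx₀)
  set t : ℝ := min (ε / 4) (μ / 20) with ht
  have ht0 : 0 < t := lt_min (by linarith) (by linarith)
  have htε : t ≤ ε / 4 := min_le_left _ _
  have htμ : t ≤ μ / 20 := min_le_right _ _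
  have hsq : ∀ x ∈ X, ‖x - t • u‖ ^ 2 = 1 - 2 * t * inner ℝ x u + t ^ 2 := by
    intro x hx
    rw [norm_sub_sq_real, h1 x hx, inner_smul_right, norm_smul, hu, Real.norm_eq_abs,
      mul_one, sq_abs]
    ring
  have hlow : ∀ x ∈ X, |‖x - t • u‖ - 1| ≤ t := by
    intro x hx
    have h4 := abs_norm_sub_norm_le (x - t • u) x
    rw [h1 x hx, sub_sub_cancel_left, norm_neg, norm_smul, hu, mul_one, Real.norm_eq_abs,
      abs_of_pos ht0] at h4
    exact h4
  have hpos : ∀ x ∈ X, 0 < ‖x - t • u‖ := by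
    intro x hx
    have := (abs_le.mp (hlow x hx)).1
    linarith
  refine ⟨fun x => ‖x - t • u‖⁻¹ • (x - t • u), ?_, ?_⟩
  · intro x hx
    have hp := hpos x hx
    refine ⟨?_, ?_⟩
    · rw [norm_smul, norm_inv, norm_norm, inv_mul_cancel₀ hp.ne']
    · have e1 : ‖x - t • u‖⁻¹ • (x - t • u) - x =
          (‖x - t • u‖⁻¹ • (x - t • u) - (x - t • u)) - t • u := by abel
      have e2 : ‖‖x - t • u‖⁻¹ • (x - t • u) - (x - t • u)‖ = |‖x - t • u‖ - 1| := by
        have e3 : ‖x - t • u‖⁻¹ • (x - t • u) - (x - t • u) =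
            (‖x - t • u‖⁻¹ - 1) • (x - t • u) := by rw [sub_smul, one_smul]
        rw [e3, norm_smul, Real.norm_eq_abs]
        calc |‖x - t • u‖⁻¹ - 1| * ‖x - t • u‖ = |(‖x - t • u‖⁻¹ - 1) * ‖x - t • u‖| := by
              rw [abs_mul, abs_of_pos hp]
          _ = |1 - ‖x - t • u‖| := by rw [sub_mul, inv_mul_cancel₀ hp.ne', one_mul]
          _ = |‖x - t • u‖ - 1| := abs_sub_comm _ _
      rw [e1]
      calc ‖(‖x - t • u‖⁻¹ • (x - t • u) - (x - t • u)) - t • u‖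
          ≤ ‖‖x - t • u‖⁻¹ • (x - t • u) - (x - t • u)‖ + ‖t • u‖ := norm_sub_le _ _
        _ ≤ t + t := by
            rw [e2, norm_smul, hu, mul_one, Real.norm_eq_abs, abs_of_pos ht0]
            linarith [hlow x hx]
        _ < ε := by linarith
  · intro x hx y hy hxy
    have hpx := hpos x hx
    have hpy := hpos y hy
    have hsx := hmin x hx
    have hsy := hmin y hy
    have e1 : inner ℝ (x - t • u) (y - t • u) =
        inner ℝ x y - t * (inner ℝ x u + inner ℝ y u) + t ^ 2 := by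
      rw [inner_sub_left, inner_sub_right, inner_sub_right, inner_smul_left, inner_smul_right,
        inner_smul_left, inner_smul_right, real_inner_self_eq_norm_sq, hu,
        real_inner_comm y u]
      simp only [conj_trivial]
      ring
    have key := core (p := inner ℝ x y) (t := t) rfl (hs1 x hx) (hs1 y hy) ht0
      (by linarith) (h2 x hx y hy hxy)
    have e2 : √((1 - 2 * t * inner ℝ x u + t ^ 2) * (1 - 2 * t * inner ℝ y u + t ^ 2)) =
        ‖x - t • u‖ * ‖y - t • u‖ := by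
      rw [← hsq x hx, ← hsq y hy, ← mul_pow, Real.sqrt_sq (by positivity)]
    rw [e2, ← e1] at key
    show inner ℝ (‖x - t • u‖⁻¹ • (x - t • u)) (‖y - t • u‖⁻¹ • (y - t • u)) < 1 / 2
    rw [inner_smul_left, inner_smul_right]
    simp only [conj_trivial]
    rw [← mul_assoc, ← mul_inv, inv_mul_lt_iff₀ (by positivity)]
    linarith

theorem half (X : Finset E) (h1 : ∀ x ∈ X, ‖x‖ = 1)
    (h2 : ∀ x ∈ X, ∀ y ∈ X, x ≠ y → inner ℝ x y ≤ 1 / 2) (ε : ℝ) (hε : 0 < ε) :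
    ∃ X' ⊆ X, X.card ≤ 2 * X'.card ∧ ∃ f : E → E,
      (∀ x ∈ X', ‖f x‖ = 1 ∧ ‖f x - x‖ < ε) ∧
      ∀ x ∈ X', ∀ y ∈ X', x ≠ y → inner ℝ (f x) (f y) < 1 / 2 := by
  classical
  rcases X.eq_empty_or_nonempty with h0 | hne
  · subst h0
    exact ⟨∅, subset_rfl, by simp, id, by simp, by simp⟩
  obtain ⟨v, hv⟩ := exists_generic X (fun x hx h => by
    have := h1 x hx
    rw [h, norm_zero] at this
    exact zero_ne_one this)
  have hv0 : v ≠ 0 := by
    rintro rfl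
    obtain ⟨x, hx⟩ := hne
    exact hv x hx (inner_zero_right x)
  set u : E := ‖v‖⁻¹ • v with hu
  have hu1 : ‖u‖ = 1 := by
    rw [hu, norm_smul, norm_inv, norm_norm, inv_mul_cancel₀ (norm_ne_zero_iff.mpr hv0)]
  have hgen : ∀ x ∈ X, inner ℝ x u ≠ 0 := by
    intro x hx h
    rw [hu, inner_smul_right] at h
    rcases mul_eq_zero.mp h with h | h
    · exact inv_ne_zero (norm_ne_zero_iff.mpr hv0) h
    · exact hv x hx h
  have hcard : (X.filter fun x => 0 < inner ℝ x u).card +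
      (X.filter fun x => 0 < inner ℝ x (-u)).card = X.card := by
    rw [← card_union_of_disjoint]
    · congr 1
      ext x
      simp only [mem_union, mem_filter, inner_neg_right]
      constructor
      · rintro (h | h) <;> exact h.1
      · intro hx
        rcases lt_or_gt_of_ne (hgen x hx) with h | h
        · right; exact ⟨hx, by linarith⟩
        · left; exact ⟨hx, h⟩
    · rw [disjoint_left]
      intro x hx hy
      rw [mem_filter] at hx hy
      rw [inner_neg_right] at hy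
      linarith [hx.2, hy.2]
  have main : ∀ w : E, ‖w‖ = 1 → X.card ≤ 2 * (X.filter fun x => 0 < inner ℝ x w).card →
      ∃ X' ⊆ X, X.card ≤ 2 * X'.card ∧ ∃ f : E → E,
      (∀ x ∈ X', ‖f x‖ = 1 ∧ ‖f x - x‖ < ε) ∧
      ∀ x ∈ X', ∀ y ∈ X', x ≠ y → inner ℝ (f x) (f y) < 1 / 2 := by
    intro w hw hc
    refine ⟨_, filter_subset _ _, hc, ?_⟩
    exact push w hw _ (fun x hx => h1 x (mem_filter.mp hx).1)
      (fun x hx y hy => h2 x (mem_filter.mp hx).1 y (mem_filter.mp hy).1)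
      (fun x hx => (mem_filter.mp hx).2) ε hε
  rcases le_total (X.filter fun x => 0 < inner ℝ x (-u)).card
    (X.filter fun x => 0 < inner ℝ x u).card with h | h
  · exact main u hu1 (by omega)
  · exact main (-u) (by rw [norm_neg]; exact hu1) (by omega)

end Pool.Agent.H13.Kiss
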